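import Pool.Agent.H43R3.SN.StmtsA

/-!
# Project H43-SN, TASK HULL
-/

set_option autoImplicit false

open Finset
open scoped Pointwise

namespace Pool.Agent.H42R3.SN

open Pool.Agent.H43R3.SN

/-- the progression -/
def Rr (a δ : ℤ) (L : ℕ) : Finset ℤ := (Finset.range (L + 1)).image (fun j : ℕ => a + j * δ)

lemma mem_Rr {a δ x : ℤ} {L : ℕ} : x ∈ Rr a δ L ↔ ∃ j : ℕ, j ≤ L ∧ x = a + j * δ := by
  unfold Rr
  rw [Finset.mem_image]
  constructor
  · rintro ⟨j, hj, rfl⟩
    exact ⟨j, by simpa [Nat.lt_succ_iff] using hj, rfl⟩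
  · rintro ⟨j, hj, rfl⟩
    exact ⟨j, by simpa [Nat.lt_succ_iff] using hj, rfl⟩

lemma card_Rr {a δ : ℤ} {L : ℕ} (hδ : 0 < δ) : (Rr a δ L).card = L + 1 := by
  unfold Rr
  rw [Finset.card_image_of_injective, Finset.card_range]
  intro i j h
  have h1 : (i : ℤ) * δ = j * δ := by simpa using h
  have h2 : (i : ℤ) = j := mul_right_cancel₀ hδ.ne' h1
  exact_mod_cast h2

/-- upper bound for the number of elements of `A + R` -/
lemma upper (A C Sg : Finset ℤ) (a δ : ℤ) (L E : ℕ) (hCA : C ⊆ A)
    (hS : ∀ x ∈ A, ∀ y ∈ C, x ≠ y → x + y ∈ Sg) (hc : Sg.card + 3 ≤ 2 * C.card + E) (hδ : 0 < δ)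
    (hR : ∀ j : ℕ, j ≤ L → a + j * δ ∈ C)
    (hC : ∀ x ∈ C, a ≤ x → x ≤ a + L * δ → ∃ j : ℕ, j ≤ L ∧ x = a + j * δ) :
    (A + Rr a δ L).card ≤ A.card + L + E + 2 := by
  classical
  have haC : a ∈ C := by simpa using hR 0 (Nat.zero_le _)
  have hbC : a + L * δ ∈ C := hR L le_rfl
  have hAne : A.Nonempty := ⟨a, hCA haC⟩
  set m := A.min' hAne with hm
  set M := A.max' hAne with hM
  have hmA : m ∈ A := A.min'_mem hAne
  have hMA : M ∈ A := A.max'_mem hAne
  have hml : ∀ x ∈ A, m ≤ x := fun x hx => A.min'_le x hx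
  have hMl : ∀ x ∈ A, x ≤ M := fun x hx => A.le_max' x hx
  have hLδ : (0 : ℤ) ≤ L * δ := by positivity
  -- the three parts
  set P1 : Finset ℤ := (A + Rr a δ L) \ {a + a, (a + L * δ) + (a + L * δ)} with hP1
  set P2 : Finset ℤ := ((C.filter (fun c => c < a)).erase m).image (fun c => m + c) with hP2
  set P3 : Finset ℤ := ((C.filter (fun c => a + L * δ < c)).erase M).image (fun c => M + c) with hP3
  have h1 : P1 ⊆ Sg := by
    intro z hz
    rw [hP1, Finset.mem_sdiff, Finset.mem_add] at hz
    obtain ⟨⟨x, hx, r, hr, rfl⟩, hne⟩ := hz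
    rw [mem_Rr] at hr
    obtain ⟨j, hj, rfl⟩ := hr
    by_cases hxr : x = a + j * δ
    · subst hxr
      have hj0 : j ≠ 0 := by
        rintro rfl
        apply hne
        simp
      have hjL : j ≠ L := by
        rintro rfl
        apply hne
        simp
      obtain ⟨i, rfl⟩ := Nat.exists_eq_succ_of_ne_zero hj0
      have e : (a + ((i.succ : ℕ) : ℤ) * δ) + (a + ((i.succ : ℕ) : ℤ) * δ) =
          (a + ((i : ℕ) : ℤ) * δ) + (a + ((i + 2 : ℕ) : ℤ) * δ) := by
        push_cast
        ring
      rw [e]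
      apply hS _ (hCA (hR i (by omega))) _ (hR (i + 2) (by omega))
      intro h
      have : (2 : ℤ) * δ = 0 := by
        push_cast at h
        linarith
      omega
    · exact hS x hx _ (hR j hj) hxr
  have h2 : P2 ⊆ Sg := by
    intro z hz
    rw [hP2, Finset.mem_image] at hz
    obtain ⟨c, hc, rfl⟩ := hz
    rw [Finset.mem_erase, Finset.mem_filter] at hc
    exact hS m hmA c hc.2.1 (Ne.symm hc.1)
  have h3 : P3 ⊆ Sg := by
    intro z hz
    rw [hP3, Finset.mem_image] at hz
    obtain ⟨c, hc, rfl⟩ := hz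
    rw [Finset.mem_erase, Finset.mem_filter] at hc
    exact hS M hMA c hc.2.1 (Ne.symm hc.1)
  have lo : ∀ z ∈ P1, m + a ≤ z := by
    intro z hz
    rw [hP1, Finset.mem_sdiff, Finset.mem_add] at hz
    obtain ⟨⟨x, hx, r, hr, rfl⟩, -⟩ := hz
    rw [mem_Rr] at hr
    obtain ⟨j, hj, rfl⟩ := hr
    have := hml x hx
    have : (0 : ℤ) ≤ j * δ := by positivity
    linarith
  have hi : ∀ z ∈ P1, z ≤ M + (a + L * δ) := by
    intro z hz
    rw [hP1, Finset.mem_sdiff, Finset.mem_add] at hz
    obtain ⟨⟨x, hx, r, hr, rfl⟩, -⟩ := hz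
    rw [mem_Rr] at hr
    obtain ⟨j, hj, rfl⟩ := hr
    have := hMl x hx
    have : (j : ℤ) * δ ≤ L * δ := by
      apply mul_le_mul_of_nonneg_right _ hδ.le
      exact_mod_cast hj
    linarith
  have up2 : ∀ z ∈ P2, z < m + a := by
    intro z hz
    rw [hP2, Finset.mem_image] at hz
    obtain ⟨c, hc, rfl⟩ := hz
    rw [Finset.mem_erase, Finset.mem_filter] at hc
    have := hc.2.2
    linarith
  have lo3 : ∀ z ∈ P3, M + (a + L * δ) < z := by
    intro z hz
    rw [hP3, Finset.mem_image] at hz
    obtain ⟨c, hc, rfl⟩ := hz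
    rw [Finset.mem_erase, Finset.mem_filter] at hc
    have := hc.2.2
    linarith
  have hmM : m ≤ M := hml M hMA
  have d12 : Disjoint P1 P2 := by
    rw [Finset.disjoint_left]
    intro z hz hz'
    have := lo z hz
    have := up2 z hz'
    omega
  have d123 : Disjoint (P1 ∪ P2) P3 := by
    rw [Finset.disjoint_left]
    intro z hz hz'
    have h3' := lo3 z hz'
    rcases Finset.mem_union.1 hz with hz | hz
    · have := hi z hz
      omega
    · have := up2 z hz
      have : m + a ≤ M + (a + L * δ) := by linarith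
      omega
  have hU : ((P1 ∪ P2) ∪ P3).card ≤ Sg.card :=
    Finset.card_le_card (Finset.union_subset (Finset.union_subset h1 h2) h3)
  rw [Finset.card_union_of_disjoint d123, Finset.card_union_of_disjoint d12] at hU
  have c1 : (A + Rr a δ L).card ≤ P1.card + 2 := by
    have := Finset.le_card_sdiff ({a + a, (a + L * δ) + (a + L * δ)} : Finset ℤ) (A + Rr a δ L)
    have h2 : ({a + a, (a + L * δ) + (a + L * δ)} : Finset ℤ).card ≤ 2 := Finset.card_le_two
    rw [← hP1] at this
    omega
  have c2 : (C.filter (fun c => c < a)).card ≤ P2.card + 1 := by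
    rw [hP2, Finset.card_image_of_injective _ (add_right_injective m)]
    have := Finset.pred_card_le_card_erase (s := C.filter (fun c => c < a)) (a := m)
    omega
  have c3 : (C.filter (fun c => a + L * δ < c)).card ≤ P3.card + 1 := by
    rw [hP3, Finset.card_image_of_injective _ (add_right_injective M)]
    have := Finset.pred_card_le_card_erase (s := C.filter (fun c => a + L * δ < c)) (a := M)
    omega
  have c4 : C.card ≤ (C.filter (fun c => c < a)).card + (C.filter (fun c => a + L * δ < c)).card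
      + (L + 1) := by
    have : C ⊆ (C.filter (fun c => c < a) ∪ C.filter (fun c => a + L * δ < c)) ∪ Rr a δ L := by
      intro c hc
      rw [Finset.mem_union, Finset.mem_union, Finset.mem_filter, Finset.mem_filter, mem_Rr]
      by_cases h1 : c < a
      · exact Or.inl (Or.inl ⟨hc, h1⟩)
      · by_cases h2 : a + L * δ < c
        · exact Or.inl (Or.inr ⟨hc, h2⟩)
        · exact Or.inr (hC c hc (by omega) (by omega))
    calc C.card ≤ _ := Finset.card_le_card this
      _ ≤ _ := Finset.card_union_le _ _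
      _ ≤ _ := by
        rw [card_Rr hδ]
        have := Finset.card_union_le (C.filter (fun c => c < a)) (C.filter (fun c => a + L * δ < c))
        omega
  have hCA' : C.card ≤ A.card := Finset.card_le_card hCA
  omega

/-- splitting is impossible -/
lemma split (A : Finset ℤ) (a δ : ℤ) (L E : ℕ) (hδ : 0 < δ) (hEL : E + 3 ≤ L)
    (hU : (A + Rr a δ L).card ≤ A.card + L + E + 2) (p : ℤ → Prop)
    (h1 : ∃ x ∈ A, p x) (h2 : ∃ x ∈ A, ¬ p x)
    (hd : ∀ x ∈ A, p x → ∀ y ∈ A, ¬ p y → ∀ r ∈ Rr a δ L, ∀ s ∈ Rr a δ L, x + r ≠ y + s) :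
    False := by
  classical
  have hRne : (Rr a δ L).Nonempty := by
    rw [← Finset.card_pos, card_Rr hδ]
    omega
  have n1 : (A.filter p).Nonempty := by
    obtain ⟨x, hx, hp⟩ := h1
    exact ⟨x, Finset.mem_filter.2 ⟨hx, hp⟩⟩
  have n2 : (A.filter (fun x => ¬ p x)).Nonempty := by
    obtain ⟨x, hx, hp⟩ := h2
    exact ⟨x, Finset.mem_filter.2 ⟨hx, hp⟩⟩
  have k1 := cauchy_davenport_add_of_linearOrder_isCancelAdd n1 hRne
  have k2 := cauchy_davenport_add_of_linearOrder_isCancelAdd n2 hRne
  have dj : Disjoint (A.filter p + Rr a δ L) (A.filter (fun x => ¬ p x) + Rr a δ L) := by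
    rw [Finset.disjoint_left]
    intro z hz hz'
    rw [Finset.mem_add] at hz hz'
    obtain ⟨x, hx, r, hr, rfl⟩ := hz
    obtain ⟨y, hy, s, hs, e⟩ := hz'
    rw [Finset.mem_filter] at hx hy
    exact hd x hx.1 hx.2 y hy.1 hy.2 r hr s hs e.symm
  have sub : (A.filter p + Rr a δ L) ∪ (A.filter (fun x => ¬ p x) + Rr a δ L) ⊆ A + Rr a δ L := by
    apply Finset.union_subset
    · exact Finset.add_subset_add_right (Finset.filter_subset _ _)
    · exact Finset.add_subset_add_right (Finset.filter_subset _ _)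
  have k3 := Finset.card_le_card sub
  rw [Finset.card_union_of_disjoint dj] at k3
  rw [card_Rr hδ] at k1 k2
  have k4 := Finset.card_filter_add_card_filter_not (s := A) p
  have p1 := n1.card_pos
  have p2 := n2.card_pos
  omega

theorem taskHULL : TaskHULL := by
  intro A C Sg a δ L E hCA hS hc hEL hδ hR hC
  classical
  have hU := upper A C Sg a δ L E hCA hS hc hδ hR hC
  have haC : a ∈ C := by simpa using hR 0 (Nat.zero_le _)
  have haA : a ∈ A := hCA haC
  have hdiv : ∀ x ∈ A, δ ∣ x - a := by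
    intro x hx
    by_contra hnd
    refine split A a δ L E hδ hEL hU (fun x => δ ∣ x - a) ⟨a, haA, by simp⟩ ⟨x, hx, hnd⟩ ?_
    intro x hx hpx y hy hpy r hr s hs e
    rw [mem_Rr] at hr hs
    obtain ⟨i, -, rfl⟩ := hr
    obtain ⟨j, -, rfl⟩ := hs
    apply hpy
    have : y - a = (x - a) + ((i : ℤ) - j) * δ := by linarith
    rw [this]
    exact dvd_add hpx (dvd_mul_left _ _)
  refine ⟨hdiv, ?_⟩
  have hAne : A.Nonempty := ⟨a, haA⟩
  set m := A.min' hAne with hm
  set M := A.max' hAne with hM
  have hmA : m ∈ A := A.min'_mem hAne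
  have hMA : M ∈ A := A.max'_mem hAne
  have hml : ∀ x ∈ A, m ≤ x := fun x hx => A.min'_le x hx
  have hMl : ∀ x ∈ A, x ≤ M := fun x hx => A.le_max' x hx
  have hmM : m ≤ M := hml M hMA
  obtain ⟨n', hn'⟩ : δ ∣ M - m := by
    have := dvd_sub (hdiv M hMA) (hdiv m hmA)
    simpa using this
  have hn0 : 0 ≤ n' := by
    by_contra hneg
    have : δ * n' < 0 := mul_neg_of_pos_of_neg hδ (by omega)
    omega
  obtain ⟨n, rfl⟩ := Int.eq_ofNat_of_zero_le hn0
  -- the full progression
  have hfull : (Finset.range (n + L + 1)).image (fun i : ℕ => m + a + i * δ) ⊆ A + Rr a δ L := by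
    intro z hz
    rw [Finset.mem_image] at hz
    obtain ⟨i, hi, rfl⟩ := hz
    rw [Finset.mem_range] at hi
    by_cases hex : ∃ x ∈ A, x ≤ m + i * δ ∧ m + i * δ ≤ x + L * δ
    · obtain ⟨x, hx, h1, h2⟩ := hex
      obtain ⟨k, hk⟩ : δ ∣ (m + i * δ) - x := by
        have := dvd_sub (hdiv m hmA) (hdiv x hx)
        have e : (m + i * δ) - x = ((m - a) - (x - a)) + i * δ := by ring
        rw [e]
        exact dvd_add this (dvd_mul_left _ _)
      have hk0 : 0 ≤ k := by
        by_contra hneg
        have : δ * k < 0 := mul_neg_of_pos_of_neg hδ (by omega)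
        omega
      obtain ⟨k, rfl⟩ := Int.eq_ofNat_of_zero_le hk0
      have hkL : k ≤ L := by
        have : δ * (k : ℤ) ≤ δ * L := by
          rw [← hk]
          linarith [mul_comm δ (L : ℤ)]
        have := le_of_mul_le_mul_left this hδ
        exact_mod_cast this
      rw [Finset.mem_add]
      refine ⟨x, hx, a + k * δ, mem_Rr.2 ⟨k, hkL, rfl⟩, ?_⟩
      have : δ * (k : ℤ) = k * δ := mul_comm _ _
      linarith
    · exfalso
      push Not at hex
      refine split A a δ L E hδ hEL hU (fun x => x ≤ m + i * δ) ⟨m, hmA, ?_⟩ ⟨M, hMA, ?_⟩ ?_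
      · have : (0 : ℤ) ≤ i * δ := by positivity
        linarith
      · intro hle
        have h3 := hex M hMA hle
        have e1 : M = m + δ * n := by
          have := hn'
          linarith
        have : (i : ℤ) * δ ≤ (n + L) * δ := by
          apply mul_le_mul_of_nonneg_right _ hδ.le
          have : i ≤ n + L := by omega
          exact_mod_cast this
        have e2 : ((n : ℤ) + L) * δ = δ * n + L * δ := by ring
        linarith
      · intro x hx hpx y hy hpy r hr s hs e
        rw [mem_Rr] at hr hs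
        obtain ⟨k, hk, rfl⟩ := hr
        obtain ⟨l, -, rfl⟩ := hs
        have h3 := hex x hx hpx
        have h4 : m + i * δ < y := by
          by_contra hcon
          exact hpy (by linarith)
        have h5 : (k : ℤ) * δ ≤ L * δ := by
          apply mul_le_mul_of_nonneg_right _ hδ.le
          exact_mod_cast hk
        have h6 : (0 : ℤ) ≤ l * δ := by positivity
        linarith
  have hcard := Finset.card_le_card hfull
  rw [Finset.card_image_of_injective, Finset.card_range] at hcard
  · intro x hx y hy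
    have hnn : n ≤ A.card + E + 1 := by omega
    have h1 : y - x ≤ M - m := by
      have := hMl y hy
      have := hml x hx
      omega
    refine h1.trans ?_
    rw [hn']
    apply mul_le_mul_of_nonneg_left _ hδ.le
    have : ((n : ℕ) : ℤ) ≤ ((A.card + E + 1 : ℕ) : ℤ) := by exact_mod_cast hnn
    push_cast at this ⊢
    linarith
  · intro i j h
    have h1 : (i : ℤ) * δ = j * δ := by simpa using h
    have h2 : (i : ℤ) = j := mul_right_cancel₀ hδ.ne' h1
    exact_mod_cast h2

end Pool.Agent.H42R3.SN
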